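import Pool.Graph.R_pool_sql_team_22c7b01f.H20.LSS1
import Pool.Graph.R_pool_sql_team_22c7b01f.H20.LSS2

set_option autoImplicit false

/-!
# A one-parameter degeneration for families of polynomials over a domain
-/

namespace Pool.Agent.KS6_37.LSS
open MvPolynomial Pool.Agent.H20.LSS

variable {R : Type*} [CommRing R] {σ ι : Type*}

/-- the substitution `t ↦ c` -/
noncomputable def ev (c : R) : MvPolynomial (Option σ) R →+* MvPolynomial σ R :=
  eval₂Hom C fun o => o.elim (C c) X

noncomputable def rn : MvPolynomial σ R →+* MvPolynomial (Option σ) R :=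
  (rename some : MvPolynomial σ R →ₐ[R] _).toRingHom

@[simp] lemma rn_X (s : σ) : rn (X s : MvPolynomial σ R) = X (some s) := by simp [rn]
@[simp] lemma rn_C (a : R) : rn (C a : MvPolynomial σ R) = C a := by simp [rn]
@[simp] lemma ev_C (c a : R) : ev c (C a : MvPolynomial (Option σ) R) = C a := by simp [ev]
@[simp] lemma ev_some (c : R) (s : σ) : ev c (X (some s) : MvPolynomial (Option σ) R) = X s := by
  simp [ev]
@[simp] lemma ev_none (c : R) : ev c (X none : MvPolynomial (Option σ) R) = C c := by
  simp [ev]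

@[simp] lemma ev_rn (c : R) (x : MvPolynomial σ R) : ev c (rn x) = x := by
  induction x using MvPolynomial.induction_on with
  | C a => simp
  | add p q hp hq => simp only [map_add, hp, hq]
  | mul_X p i hp => simp only [map_mul, hp]; simp

lemma sub_rn_ev (c : R) (x : MvPolynomial (Option σ) R) :
    x - rn (ev c x) ∈ Ideal.span {(X none - C c : MvPolynomial (Option σ) R)} := by
  have h2 : ((Ideal.Quotient.mk (Ideal.span {(X none - C c : MvPolynomial (Option σ) R)})).comp rn)
      (ev c x) = Ideal.Quotient.mk _ x := by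
    induction x using MvPolynomial.induction_on with
    | C a => simp
    | add p q hp hq => simp only [map_add, hp, hq]
    | mul_X p i hp =>
      simp only [map_mul, hp]
      congr 1
      cases i with
      | none =>
        have : Ideal.Quotient.mk (Ideal.span {(X none - C c : MvPolynomial (Option σ) R)})
            (X none - C c) = 0 :=
          Ideal.Quotient.eq_zero_iff_mem.2 (Ideal.mem_span_singleton_self _)
        rw [map_sub, sub_eq_zero] at this
        rw [this]; simp
      | some p => simp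
  rw [← Ideal.Quotient.eq_zero_iff_mem, map_sub, ← h2]
  simp

/-- **Degeneration.** If the members `G A` of a family are weighted homogeneous (the parameter `t`
has weight one) and the special fibres `G A |_{t = 0}` generate prime ideals and none of them lies
in the ideal generated by others, then the same holds for the fibres at `t = 1`. -/
theorem degen [IsDomain R] [DecidableEq ι] (E : Finset ι) (w : σ → ℕ)
    (G : ι → MvPolynomial (Option σ) R) (D : ι → ℕ)
    (hG : ∀ A ∈ E, G A ∈ weightedHomogeneousSubmodule R (fun o : Option σ => o.elim 1 w) (D A))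
    (hp : ∀ E' ⊆ E, (Ideal.span ((fun A => ev 0 (G A)) '' (E' : Set ι))).IsPrime)
    (hn : ∀ E' ⊆ E, ∀ A ∈ E, A ∉ E' → ev 0 (G A) ∉ Ideal.span ((fun A => ev 0 (G A)) '' (E' : Set ι))) :
    ∀ E' ⊆ E, (Ideal.span ((fun A => ev 1 (G A)) '' (E' : Set ι))).IsPrime ∧
      ∀ A ∈ E, A ∉ E' → ev 1 (G A) ∉ Ideal.span ((fun A => ev 1 (G A)) '' (E' : Set ι)) := by
  set W : Option σ → ℕ := fun o => o.elim 1 w with hW
  let _ := weightedGradedAlgebra R W
  set t : MvPolynomial (Option σ) R := X none with htdef
  have ht : t ∈ weightedHomogeneousSubmodule R W 1 := isWeightedHomogeneous_X R W none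
  let J : Finset ι → Ideal (MvPolynomial (Option σ) R) := fun E' =>
    Ideal.span (G '' (E' : Set ι))
  have hJ : ∀ E' ⊆ E, (J E').IsHomogeneous (weightedHomogeneousSubmodule R W) := by
    intro E' h
    refine Ideal.homogeneous_span _ _ ?_
    rintro _ ⟨A, hA, rfl⟩
    exact ⟨_, hG A (h hA)⟩
  have hJt : ∀ E', J E' ⊔ Ideal.span {t} =
      (Ideal.span ((fun A => ev 0 (G A)) '' (E' : Set ι))).comap (ev 0) := by
    intro E'
    have h2 : ∀ x, ((Ideal.Quotient.mk (J E' ⊔ Ideal.span {t})).comp rn) (ev 0 x) =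
        Ideal.Quotient.mk _ x := by
      intro x
      refine (Ideal.Quotient.eq.2 ?_).symm
      have := sub_rn_ev 0 x
      rw [map_zero, sub_zero] at this
      exact Ideal.mem_sup_right this
    refine transfer (ev 0) _ _ (sup_le (Ideal.span_le.2 ?_) (Ideal.span_le.2 ?_)) _ h2
      (Ideal.span_le.2 ?_)
    · rintro _ ⟨A, hA, rfl⟩
      rw [SetLike.mem_coe, Ideal.mem_comap]
      exact Ideal.subset_span ⟨A, hA, rfl⟩
    · rintro _ rfl
      rw [SetLike.mem_coe, Ideal.mem_comap]
      simp [htdef]
    · rintro _ ⟨A, hA, rfl⟩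
      show ((Ideal.Quotient.mk (J E' ⊔ Ideal.span {t})).comp rn) _ = 0
      rw [h2]
      exact Ideal.Quotient.eq_zero_iff_mem.2 (Ideal.mem_sup_left (Ideal.subset_span ⟨A, hA, rfl⟩))
  have hJtp : ∀ E' ⊆ E, (J E' ⊔ Ideal.span {t}).IsPrime := by
    intro E' h
    rw [hJt E']
    have := hp E' h
    exact Ideal.comap_isPrime _ _
  have hmain : ∀ E' ⊆ E, (J E').IsPrime ∧ t ∉ J E' := by
    intro E'
    induction E' using Finset.induction_on with
    | empty =>
      intro _
      have : J ∅ = ⊥ := by simp [J]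
      rw [this]
      exact ⟨Ideal.isPrime_bot, by simp [htdef]⟩
    | insert A E' hA ih =>
      intro h
      have h' : E' ⊆ E := (Finset.subset_insert _ _).trans h
      have hAE : A ∈ E := h (Finset.mem_insert_self _ _)
      have e1 : J (insert A E') = J E' ⊔ Ideal.span {G A} := by
        simp only [J, Finset.coe_insert, Set.image_insert_eq]
        rw [Ideal.span_insert, sup_comm]
      have hreg : ∀ x, t * x ∈ J (insert A E') → x ∈ J (insert A E') := by
        rw [e1]
        refine swap (ih h').1 (ih h').2 (hJtp E' h') ?_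
        rw [hJt E', Ideal.mem_comap]
        exact hn E' h' A hAE hA
      have hpr := (sep_of_homogeneous _ (hJ _ h) one_pos ht).prime hreg (hJtp _ h)
      exact ⟨hpr, fun hm => hpr.ne_top ((Ideal.eq_top_iff_one _).2 (hreg 1 (by simpa using hm)))⟩
  intro E' h
  have hC1 : (C 1 : MvPolynomial (Option σ) R) = 1 := C_1
  have hsub : ∀ x : MvPolynomial (Option σ) R, x - rn (ev 1 x) ∈ Ideal.span {t - 1} := by
    intro x
    have := sub_rn_ev 1 x
    rwa [hC1] at this
  have key : (Ideal.span ((fun A => ev 1 (G A)) '' (E' : Set ι))) =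
      (J E' ⊔ Ideal.span {t - 1}).comap rn := by
    refine transfer rn (J E' ⊔ Ideal.span {t - 1}) _ (Ideal.span_le.2 ?_)
      ((Ideal.Quotient.mk _).comp (ev 1)) (fun x => by simp)
      (sup_le (Ideal.span_le.2 ?_) (Ideal.span_le.2 ?_))
    · rintro _ ⟨A, hA, rfl⟩
      rw [SetLike.mem_coe, Ideal.mem_comap]
      have h1 : G A ∈ J E' ⊔ Ideal.span {t - 1} := Ideal.mem_sup_left (Ideal.subset_span ⟨A, hA, rfl⟩)
      have := sub_mem h1 (Ideal.mem_sup_right (hsub (G A)) : G A - rn (ev 1 (G A)) ∈ J E' ⊔ Ideal.span {t - 1})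
      rwa [sub_sub_cancel] at this
    · rintro _ ⟨A, hA, rfl⟩
      show Ideal.Quotient.mk _ (ev 1 _) = 0
      exact Ideal.Quotient.eq_zero_iff_mem.2 (Ideal.subset_span ⟨A, hA, rfl⟩)
    · rintro _ rfl
      show Ideal.Quotient.mk _ (ev 1 _) = 0
      simp [htdef]
  refine ⟨?_, fun A hA hA' hm => ?_⟩
  · have hq := dehom_prime _ (hJ E' h) (hmain E' h).1 ht (hmain E' h).2
    rw [key]
    exact Ideal.comap_isPrime _ _
  · rw [key, Ideal.mem_comap] at hm
    have hm2 : G A ∈ J E' ⊔ Ideal.span {t - 1} := by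
      have := add_mem hm (Ideal.mem_sup_right (hsub (G A)) : G A - rn (ev 1 (G A)) ∈ J E' ⊔ Ideal.span {t - 1})
      simpa using this
    have hm3 := mem_of_mem_dehom _ (hJ E' h) (hmain E' h).1 ht (hmain E' h).2 (hG A hA) hm2
    have hm4 : G A ∈ J E' ⊔ Ideal.span {t} := Ideal.mem_sup_left hm3
    rw [hJt E', Ideal.mem_comap] at hm4
    exact hn E' h A hA hA' hm4

end Pool.Agent.KS6_37.LSS
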