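import Pool.Agent.KS6_37.LSS.Step

set_option autoImplicit false

/-!
# Lower-degree perturbations
-/

namespace Pool.Agent.KS6_37.LSS
open MvPolynomial Pool.Agent.H20.LSS

variable {R : Type*} [CommRing R] [IsDomain R] {σ ι : Type*} [DecidableEq ι]

theorem perturb (E : Finset ι) (F r : ι → MvPolynomial σ R) (n : ι → ℕ)
    (hF : ∀ A ∈ E, (F A).IsHomogeneous (n A)) (hr : ∀ A ∈ E, (r A).totalDegree < n A)
    (hp : ∀ E' ⊆ E, (Ideal.span (F '' (E' : Set ι))).IsPrime)
    (hn : ∀ E' ⊆ E, ∀ A ∈ E, A ∉ E' → F A ∉ Ideal.span (F '' (E' : Set ι))) :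
    ∀ E' ⊆ E, (Ideal.span ((fun A => F A + r A) '' (E' : Set ι))).IsPrime ∧
      ∀ A ∈ E, A ∉ E' → F A + r A ∉ Ideal.span ((fun A => F A + r A) '' (E' : Set ι)) := by
  let w : σ → ℕ := fun _ => 1
  have hW : (fun o : Option σ => o.elim 1 w) = 1 := by
    funext o; cases o <;> rfl
  let G : ι → MvPolynomial (Option σ) R := fun A =>
    rn (F A) + ∑ m ∈ Finset.range (n A), X none ^ (n A - m) * rn (homogeneousComponent m (r A))
  have hrn : ∀ (p : MvPolynomial σ R) (m : ℕ), p.IsHomogeneous m →
      IsWeightedHomogeneous (fun o : Option σ => o.elim 1 w) (rn p) m := by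
    intro p m hp
    rw [hW]
    exact IsHomogeneous.rename_isHomogeneous hp
  have hG : ∀ A ∈ E, G A ∈ weightedHomogeneousSubmodule R
      (fun o : Option σ => o.elim 1 w) (n A) := by
    intro A hA
    refine add_mem (hrn _ _ (hF A hA)) (sum_mem fun m hm => ?_)
    have hm' := Finset.mem_range.1 hm
    have h1 : IsWeightedHomogeneous (fun o : Option σ => o.elim 1 w)
        (X none ^ (n A - m) : MvPolynomial (Option σ) R) (n A - m) := by
      simpa using (IsWeightedHomogeneous.pow (isWeightedHomogeneous_X R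
          (fun o : Option σ => o.elim 1 w) none) (n A - m))
    have h2 := h1.mul (hrn _ _ (homogeneousComponent_isHomogeneous m (r A)))
    rwa [Nat.sub_add_cancel hm'.le] at h2
  have ev0 : ∀ A, ev 0 (G A) = F A := by
    intro A
    simp only [G, map_add, map_sum, map_mul, map_pow, ev_rn, ev_none]
    rw [Finset.sum_eq_zero, add_zero]
    intro m hm
    have := Finset.mem_range.1 hm
    rw [C_0, zero_pow (by omega), zero_mul]
  have ev1 : ∀ A ∈ E, ev 1 (G A) = F A + r A := by
    intro A hA
    simp only [G, map_add, map_sum, map_mul, map_pow, ev_rn, ev_none, C_1, one_pow, one_mul]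
    congr 1
    conv_rhs => rw [← sum_homogeneousComponent (r A)]
    have h := hr A hA
    refine (Finset.sum_subset (Finset.range_subset_range.2 h) fun m _ hm => ?_).symm
    refine homogeneousComponent_eq_zero _ _ ?_
    simpa using hm
  have h := degen E w G n hG
    (fun E' h => by simp only [ev0]; exact hp E' h)
    (fun E' h A hA hA' => by simp only [ev0]; exact hn E' h A hA hA')
  have him : ∀ E' ⊆ E, (fun A => ev 1 (G A)) '' (E' : Set ι) =
      (fun A => F A + r A) '' (E' : Set ι) :=
    fun E' h => Set.image_congr fun A hA => ev1 A (h hA)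
  intro E' hE
  have h2 := h E' hE
  rw [him E' hE] at h2
  refine ⟨h2.1, fun A hA hA' => ?_⟩
  have := h2.2 A hA hA'
  rwa [ev1 A hA] at this

end Pool.Agent.KS6_37.LSS
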