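import Pool.Agent.KS6_37.LSS.Degen

set_option autoImplicit false

/-!
# The degeneration step for weighted hypergraph LSS ideals
-/

namespace Pool.Agent.KS6_37.LSS
open MvPolynomial Pool.Agent.H20.LSS

variable {R : Type*} [CommRing R] {V : Type*} [DecidableEq V]

/-- `f_A = ∑_j c_(A,j) ∏_(i ∈ A) y_(i,j)` -/
noncomputable def f {d : ℕ} (c : Finset V → Fin d → R) (A : Finset V) :
    MvPolynomial (V × Fin d) R :=
  ∑ j : Fin d, C (c A j) * ∏ i ∈ A, X (i, j)

noncomputable def L {d : ℕ} (c : Finset V → Fin d → R) (E : Finset (Finset V)) :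
    Ideal (MvPolynomial (V × Fin d) R) :=
  Ideal.span (f c '' (E : Set (Finset V)))

def Clutter (E : Finset (Finset V)) : Prop :=
  (∀ A ∈ E, A.Nonempty) ∧ ∀ A ∈ E, ∀ B ∈ E, A ⊆ B → A = B

lemma prod_pt {d : ℕ} (j0 j : Fin d) (A B : Finset V) (hB : B.Nonempty) :
    ∏ i ∈ B, (if j = j0 ∧ i ∈ A then (1 : R) else 0) = if j = j0 ∧ B ⊆ A then 1 else 0 := by
  split_ifs with h
  · exact Finset.prod_eq_one fun i hi => if_pos ⟨h.1, h.2 hi⟩
  · by_cases hj : j = j0
    · obtain ⟨i, hi, hi'⟩ := Finset.not_subset.1 fun h' => h ⟨hj, h'⟩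
      exact Finset.prod_eq_zero hi (if_neg fun h' => hi' h'.2)
    · obtain ⟨i, hi⟩ := hB
      exact Finset.prod_eq_zero hi (if_neg fun h' => hj h'.1)

lemma eval_f {d : ℕ} (c : Finset V → Fin d → R) (j0 : Fin d) (A B : Finset V) (hB : B.Nonempty) :
    eval (fun p : V × Fin d => if p.2 = j0 ∧ p.1 ∈ A then (1 : R) else 0) (f c B) =
      if B ⊆ A then c B j0 else 0 := by
  simp only [f, map_sum, map_mul, map_prod, eval_X, eval_C, prod_pt j0 _ A B hB]
  rw [Finset.sum_eq_single j0] <;> simp +contextual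

variable [IsDomain R]

lemma f_notMem {d : ℕ} (hd : 0 < d) {c : Finset V → Fin d → R} (hc : ∀ A j, IsUnit (c A j))
    {E E' : Finset (Finset V)} (hE : Clutter E) (h : E' ⊆ E)
    {A : Finset V} (hA : A ∈ E) (hA' : A ∉ E') : f c A ∉ L c E' := by
  intro hm
  have : L c E' ≤ RingHom.ker
      (eval (fun p : V × Fin d => if p.2 = ⟨0, hd⟩ ∧ p.1 ∈ A then (1 : R) else 0)) := by
    refine Ideal.span_le.2 ?_
    rintro _ ⟨B, hB, rfl⟩
    show eval _ _ = 0
    rw [eval_f _ _ _ _ (hE.1 B (h hB)), if_neg]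
    intro hBA
    exact hA' (hE.2 B (h hB) A hA hBA ▸ hB)
  have h2 := this hm
  rw [RingHom.mem_ker, eval_f _ _ _ _ (hE.1 A hA), if_pos (Finset.Subset.refl _)] at h2
  exact (hc A _).ne_zero h2

/-- the coefficients of all columns but the first -/
def tl {d : ℕ} (c : Finset V → Fin (d + 1) → R) : Finset V → Fin d → R := fun A j => c A j.succ

noncomputable def F0 {d : ℕ} (c : Finset V → Fin (d + 1) → R) (M : Finset (Finset V))
    (A : Finset V) : MvPolynomial (V × Fin (d + 1)) R :=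
  (if A ∈ M then C (c A 0) * ∏ i ∈ A, X (i, 0) else 0) +
    rename (Prod.map id Fin.succ) (f (tl c) A)

lemma F0_notMem {d : ℕ} (hd : 0 < d) {c : Finset V → Fin (d + 1) → R}
    (hc : ∀ A j, IsUnit (c A j)) {E E' : Finset (Finset V)} (M : Finset (Finset V))
    (hE : Clutter E)
    (h : E' ⊆ E) {A : Finset V} (hA : A ∈ E) (hA' : A ∉ E') :
    F0 c M A ∉ Ideal.span (F0 c M '' (E' : Set (Finset V))) := by
  intro hm
  let π : MvPolynomial (V × Fin (d + 1)) R →ₐ[R] MvPolynomial (V × Fin d) R :=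
    aeval fun p => Fin.cases 0 (fun j => X (p.1, j)) p.2
  have hπ : ∀ B ∈ E, π (F0 c M B) = f (tl c) B := by
    intro B hB
    obtain ⟨i, hi⟩ := hE.1 B hB
    have h1 : π (C (c B 0) * ∏ i ∈ B, X (i, 0)) = 0 := by
      rw [map_mul, map_prod]
      rw [Finset.prod_eq_zero hi (by simp [π]), mul_zero]
    have h2 : π (rename (Prod.map id Fin.succ) (f (tl c) B)) = f (tl c) B := by
      simp only [π, aeval_rename]
      have : (fun p : V × Fin (d + 1) => (Fin.cases 0 (fun j => X (p.1, j)) p.2 :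
          MvPolynomial (V × Fin d) R)) ∘ Prod.map id Fin.succ = X := by
        funext p; simp
      rw [this]; simp
    rw [F0, map_add, h2]
    split_ifs
    · rw [h1, zero_add]
    · simp
  have : Ideal.span (F0 c M '' (E' : Set (Finset V))) ≤ (L (tl c) E').comap π := by
    refine Ideal.span_le.2 ?_
    rintro _ ⟨B, hB, rfl⟩
    show π _ ∈ L (tl c) E'
    rw [hπ B (h hB)]
    exact Ideal.subset_span ⟨B, hB, rfl⟩
  have h2 : π _ ∈ L (tl c) E' := this hm
  rw [hπ A hA] at h2
  exact f_notMem hd (fun A j => hc A _) hE h hA hA' h2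

lemma matching_prime_unit {S : Type*} [CommRing S] [IsDomain S] [Fintype V]
    (M : Finset (Finset V)) (hne : ∀ A ∈ M, A.Nonempty)
    (hdis : ∀ A ∈ M, ∀ B ∈ M, A ≠ B → Disjoint A B) (u c : Finset V → S)
    (hu : ∀ A, IsUnit (u A)) (hc : ∀ A ∈ M, c A ≠ 0) :
    (Ideal.span ((fun A : Finset V => C (u A) * ∏ i ∈ A, (X i : MvPolynomial V S) + C (c A)) ''
      (M : Set _))).IsPrime := by
  have h := matching_prime (R := S) M hne hdis (fun A => ((hu A).unit⁻¹ : Sˣ) * c A)
    (fun A hA => mul_ne_zero (Units.ne_zero _) (hc A hA))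
  convert h using 1
  have e : ∀ A : Finset V, C (u A) * ∏ i ∈ A, (X i : MvPolynomial V S) + C (c A) =
      C (u A) * (∏ i ∈ A, (X i : MvPolynomial V S) + C (((hu A).unit⁻¹ : Sˣ) * c A)) := by
    intro A
    rw [mul_add, ← C_mul, ← mul_assoc, IsUnit.mul_val_inv, one_mul]
  refine le_antisymm (Ideal.span_le.2 ?_) (Ideal.span_le.2 ?_)
  · rintro _ ⟨A, hA, rfl⟩
    simp only [SetLike.mem_coe]
    rw [e]
    exact Ideal.mul_mem_left _ _ (Ideal.subset_span ⟨A, hA, rfl⟩)
  · rintro _ ⟨A, hA, rfl⟩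
    simp only [SetLike.mem_coe]
    have h1 : C (u A) * ∏ i ∈ A, (X i : MvPolynomial V S) + C (c A) ∈ Ideal.span
      ((fun A : Finset V => C (u A) * ∏ i ∈ A, (X i : MvPolynomial V S) + C (c A)) '' (M : Set _)) :=
      Ideal.subset_span ⟨A, hA, rfl⟩
    have h2 := Ideal.mul_mem_left _ (C (((hu A).unit⁻¹ : Sˣ) : S)) h1
    rw [e, ← mul_assoc, ← C_mul, IsUnit.val_inv_mul, C_1, one_mul] at h2
    exact h2

lemma F0_prime [Fintype V] {d : ℕ} (hd : 0 < d) {c : Finset V → Fin (d + 1) → R}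
    (hc : ∀ A j, IsUnit (c A j)) {E E' M : Finset (Finset V)} (hE : Clutter E) (h : E' ⊆ E)
    (hdis : ∀ A ∈ M, ∀ B ∈ M, A ≠ B → Disjoint A B) (hp : (L (tl c) (E' \ M)).IsPrime) :
    (Ideal.span (F0 c M '' (E' : Set (Finset V)))).IsPrime := by
  set I := Ideal.span (F0 c M '' (E' : Set (Finset V)))
  let Q := MvPolynomial (V × Fin d) R ⧸ L (tl c) (E' \ M)
  let mk : MvPolynomial (V × Fin d) R →+* Q := Ideal.Quotient.mk _
  have hq := matching_prime_unit (S := Q) (E' ∩ M)
    (fun A hA => hE.1 A (h (Finset.mem_inter.1 hA).1))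
    (fun A hA B hB => hdis A (Finset.mem_inter.1 hA).2 B (Finset.mem_inter.1 hB).2)
    (fun A => mk (C (c A 0))) (fun A => mk (f (tl c) A))
    (fun A => ((hc A 0).map C).map mk)
    (fun A hA h0 => f_notMem hd (fun A j => hc A _) hE (Finset.sdiff_subset.trans h)
      (h (Finset.mem_inter.1 hA).1) (fun h' => (Finset.mem_sdiff.1 h').2 (Finset.mem_inter.1 hA).2)
      (Ideal.Quotient.eq_zero_iff_mem.1 h0))
  let θ : MvPolynomial (V × Fin (d + 1)) R →+* MvPolynomial V Q :=
    eval₂Hom (C.comp (mk.comp C)) fun p => Fin.cases (X p.1) (fun j => C (mk (X (p.1, j)))) p.2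
  have hθC : ∀ a : R, θ (C a) = C (mk (C a)) := fun a => by simp [θ]
  have hθ0 : ∀ i, θ (X (i, 0)) = X i := fun i => by simp [θ]
  have hθs : ∀ i (j : Fin d), θ (X (i, j.succ)) = C (mk (X (i, j))) := fun i j => by simp [θ]
  have hθ : ∀ x, θ (rename (Prod.map id Fin.succ) x) = C (mk x) := by
    intro x
    induction x using MvPolynomial.induction_on with
    | C a => rw [rename_C, hθC]
    | add p q hp hq => simp only [map_add, hp, hq]
    | mul_X p i hp =>
      simp only [map_mul, hp, rename_X, Prod.map, id]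
      rw [hθs]
  have hl : ∀ x ∈ L (tl c) (E' \ M), ((Ideal.Quotient.mk I).comp
      (rename (Prod.map id Fin.succ) : MvPolynomial (V × Fin d) R →ₐ[R] _).toRingHom) x = 0 := by
    intro x hx
    refine (Ideal.span_le (I := RingHom.ker _)).2 ?_ hx
    rintro _ ⟨B, hB, rfl⟩
    have hB' := Finset.mem_sdiff.1 hB
    refine Ideal.Quotient.eq_zero_iff_mem.2 (Ideal.subset_span ⟨B, hB'.1, ?_⟩)
    simp [F0, hB'.2]
  let l : MvPolynomial V Q →+* _ ⧸ I :=
    eval₂Hom (Ideal.Quotient.lift _ _ hl) fun i => Ideal.Quotient.mk I (X (i, 0))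
  have hl2 : ∀ x, l (C (mk x)) = Ideal.Quotient.mk I (rename (Prod.map id Fin.succ) x) := by
    intro x
    simp only [l, mk, eval₂Hom_C]
    exact Ideal.Quotient.lift_mk _ _ hl
  have hlX : ∀ i, l (X i) = Ideal.Quotient.mk I (X (i, 0)) := fun i => by simp [l]
  have := transfer (B := MvPolynomial V Q) θ (Ideal.span ((fun A : Finset V =>
    C (mk (C (c A 0))) * ∏ i ∈ A, (X i : MvPolynomial V Q) + C (mk (f (tl c) A))) ''
      ((E' ∩ M : Finset (Finset V)) : Set _))) I ?_ l ?_ ?_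
  · rw [this]; exact Ideal.comap_isPrime θ _
  · refine Ideal.span_le.2 ?_
    rintro _ ⟨B, hB, rfl⟩
    rw [SetLike.mem_coe, Ideal.mem_comap, F0, map_add, hθ]
    split_ifs with hM
    · refine Ideal.subset_span ⟨B, Finset.mem_coe.2 (Finset.mem_inter.2 ⟨hB, hM⟩), ?_⟩
      simp only [map_mul, map_prod, hθC, hθ0]
    · have : mk (f (tl c) B) = 0 := Ideal.Quotient.eq_zero_iff_mem.2
        (Ideal.subset_span ⟨B, Finset.mem_coe.2 (Finset.mem_sdiff.2 ⟨hB, hM⟩), rfl⟩)
      simp [this]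
  · intro x
    induction x using MvPolynomial.induction_on with
    | C a =>
      rw [hθC, hl2]; simp
    | add p q hp hq => simp only [map_add, hp, hq]
    | mul_X p i hp =>
      simp only [map_mul, hp]
      congr 1
      obtain ⟨i, j⟩ := i
      refine Fin.cases ?_ (fun j => ?_) j
      · rw [hθ0, hlX]
      · rw [hθs, hl2]; simp
  · refine Ideal.span_le.2 ?_
    rintro _ ⟨B, hB, rfl⟩
    have hB' := Finset.mem_inter.1 hB
    show l _ = 0
    rw [map_add, map_mul, hl2, hl2, map_prod]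
    simp only [hlX]
    rw [← map_prod, ← map_mul, ← map_add]
    refine Ideal.Quotient.eq_zero_iff_mem.2 (Ideal.subset_span ⟨B, hB'.1, ?_⟩)
    simp [F0, hB'.2]

omit [DecidableEq V] [IsDomain R] in
lemma f_succ (d : ℕ) (c : Finset V → Fin (d + 1) → R) (A : Finset V) :
    f c A = C (c A 0) * ∏ i ∈ A, X (i, 0) + rename (Prod.map id Fin.succ) (f (tl c) A) := by
  simp [f, Fin.sum_univ_succ, tl]

/-- the degeneration step -/
theorem step [Fintype V] {d : ℕ} (hd : 0 < d) {c : Finset V → Fin (d + 1) → R}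
    (hc : ∀ A j, IsUnit (c A j)) {E M : Finset (Finset V)} (hE : Clutter E)
    (hdis : ∀ A ∈ M, ∀ B ∈ M, A ≠ B → Disjoint A B) (N : ℕ) (u : V → ℕ) (g : Finset V → ℕ)
    (hg : ∀ A ∈ E, g A + ∑ i ∈ A, u i = N * A.card) (hg0 : ∀ A ∈ E, g A = 0 ↔ A ∈ M)
    (hp : ∀ E' ⊆ E \ M, (L (tl c) E').IsPrime) : ∀ E' ⊆ E, (L c E').IsPrime := by
  let w : V × Fin (d + 1) → ℕ := fun p => if p.2 = 0 then u p.1 else N
  let G : Finset V → MvPolynomial (Option (V × Fin (d + 1))) R := fun A =>
    X none ^ g A * rn (C (c A 0) * ∏ i ∈ A, X (i, 0)) +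
      rn (rename (Prod.map id Fin.succ) (f (tl c) A))
  have hG : ∀ A ∈ E, G A ∈ weightedHomogeneousSubmodule R
      (fun o : Option (V × Fin (d + 1)) => o.elim 1 w) (N * A.card) := by
    intro A hA
    refine add_mem ?_ ?_
    · rw [← hg A hA]
      refine IsWeightedHomogeneous.mul ?_ ?_
      · simpa using (IsWeightedHomogeneous.pow (isWeightedHomogeneous_X R
          (fun o : Option (V × Fin (d + 1)) => o.elim 1 w) none) (g A))
      · rw [map_mul, map_prod, ← zero_add (∑ i ∈ A, u i), rn_C]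
        refine IsWeightedHomogeneous.mul (isWeightedHomogeneous_C _ _) ?_
        refine IsWeightedHomogeneous.prod _ _ _ fun i _ => ?_
        simpa [w] using isWeightedHomogeneous_X R
          (fun o : Option (V × Fin (d + 1)) => o.elim 1 w) (some (i, 0))
    · simp only [f, map_sum, map_mul, map_prod]
      refine sum_mem fun j _ => ?_
      have : N * A.card = 0 + ∑ _i ∈ A, N := by simp [mul_comm]
      rw [this, rename_C, rn_C]
      refine IsWeightedHomogeneous.mul (isWeightedHomogeneous_C _ _) ?_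
      refine IsWeightedHomogeneous.prod _ _ _ fun i _ => ?_
      simpa [w] using isWeightedHomogeneous_X R
        (fun o : Option (V × Fin (d + 1)) => o.elim 1 w) (some (i, j.succ))
  have ev0 : ∀ A ∈ E, ev 0 (G A) = F0 c M A := by
    intro A hA
    simp only [G, map_add, map_mul (ev (0 : R)), map_pow, ev_rn, ev_none, F0]
    by_cases hM : A ∈ M
    · simp [hM, (hg0 A hA).2 hM]
    · simp [hM, mt (hg0 A hA).1 hM]
  have ev1 : ∀ A, ev 1 (G A) = f c A := by
    intro A
    simp only [G, map_add, map_mul (ev (1 : R)), map_pow, ev_rn, ev_none, f_succ d c A]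
    simp
  have him : ∀ E' ⊆ E, (fun A => ev 0 (G A)) '' (E' : Set (Finset V)) = F0 c M '' (E' : Set _) :=
    fun E' h => Set.image_congr fun A hA => ev0 A (h hA)
  have := degen E w G (fun A => N * A.card) hG
    (fun E' h => by
      rw [him E' h]
      exact F0_prime hd hc hE h hdis (hp _ (Finset.sdiff_subset_sdiff h le_rfl)))
    (fun E' h A hA hA' => by
      rw [him E' h, ev0 A hA]
      exact F0_notMem hd hc M hE h hA hA')
  intro E' h
  have h2 := (this E' h).1
  simp only [ev1] at h2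
  exact h2

end Pool.Agent.KS6_37.LSS
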